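import Pool.Agent.U32.Rect.Main

/-!
# The Brown-Erdős-Sós problem for triple systems with rectangular shadows

A *rectangular piece* is a relation `E` between three disjoint sets `X`, `Y`, `Z` of vertices such
that each of its three shadows (the bipartite graph of the pairs `xy`, `xz`, `yz` contained in triples)
is a disjoint union of complete bipartite graphs. Examples are the *Mal'cev pieces*, the relations
closed under the componentwise application of **some** (arbitrary) Mal'cev operations on `X`, on `Y`
and on `Z` (`p(a,a,b) = b`, `p(a,b,b) = a`), for instance all cosets of subgroups of products of three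
(not necessarily commutative) groups, and the relations closed under discriminators. Together with the
earlier results on relations closed under semilattice operations (`MeetClosed`) and under majority
operations (`MajorityPieces`) this treats the three basic kinds of polymorphisms.

Let `H` be a 3-graph on `n` vertices which is the union of `L` rectangular pieces, and suppose that
any `s` edges of `H` span more than `s + 3` vertices (the hypothesis of the problem for `k = s + 3`).

* For every `s ≥ 1`: `|H| ≤ L ((s - 1) n + (n/3)^{3/2})`. So the conjecture holds, for all `k`, for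
  these 3-graphs as long as `L = o(n^{1/2})`.
* For `s = 18` and all `s ≥ 22` even `|H| ≤ L (s - 1)² n`, so that `L = o(n)` suffices.
* For all other `s ≥ 3` the exponent `3/2` is optimal, already for a single Mal'cev piece: there is
  one with `n = 3 q²` vertices and `q³ = (n/3)^{3/2}` triples, any two of which have at most one common
  vertex, such that any `s` triples span more than `s + 3` vertices for all `3 ≤ s ≤ 21`, `s ≠ 18`.

Idea of the proof. If two different vertices `x`, `x'` of `X` lie in the same component of the shadow
in `X ∪ Y` and in the same component of the shadow in `X ∪ Z`, then the triples containing `x` or `x'`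
can be added one after the other such that `m` of them never have more than `m + 3` vertices; so
there are fewer than `s` of them. Hence a vertex of degree at least `s` is determined by its two
components, and the triples without vertices of smaller degree are a subset of a grid
`I × J × K` (the sets of components), the vertices being lines of the grid: Loomis and Whitney. If some
triple has three vertices of degree more than `(s - 1)²`, then a complete grid `[s]³` occurs, in
which `18` points, and any number `s ≥ 22` of points, can be found on at most `s + 3` lines.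
-/

set_option autoImplicit false

namespace Pool.Agent.Results.MP_c82047_co.BicliqueShadows

open Finset Pool.Agent.R181.Maj Pool.Agent.U32.Rect

/-- **Theorem.** (1) Let `s ≥ 1` and let `H` be a 3-graph on `n` vertices which is the union of `L`
rectangular pieces. If any `s` edges of `H` span more than `s + 3` vertices, then
`|H| ≤ L ((s - 1) n + (n/3)^{3/2})`, and `|H| ≤ L (s - 1)² n` if `s = 18` or `s ≥ 22`. (2) Mal'cev
pieces are rectangular. (3) For all `q` there is a Mal'cev piece `H` with `n = 3 q²` vertices and
`q³ = (n/3)^{3/2}` edges, such that any two edges of `H` span more than 4 vertices and any `s` edges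
span more than `s + 3` vertices for all other values `s ≥ 3`, that is for `3 ≤ s ≤ 21`, `s ≠ 18`. -/
theorem result :
    (∀ (s L : ℕ), 1 ≤ s → ∀ (V : Type) [Fintype V] (H : Set (Finset V))
      (F : Fin L → Set (Finset V)), (∀ i, RectPiece 3 (F i)) → H = ⋃ i, F i →
      SpanMore H s (s + 3) →
      (H.ncard : ℝ) ≤ L * ((s - 1) * Fintype.card V + ((Fintype.card V : ℝ) / 3) ^ (3 / 2 : ℝ)) ∧
      (s = 18 ∨ 22 ≤ s → H.ncard ≤ L * ((s - 1) ^ 2 * Fintype.card V))) ∧
    (∀ (V : Type) (F : Set (Finset V)), MalcevPiece 3 F → RectPiece 3 F) ∧
    (∀ q : ℕ, ∃ (V : Type) (_ : Fintype V) (H : Set (Finset V)),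
      Fintype.card V = 3 * q ^ 2 ∧ MalcevPiece 3 H ∧ H.ncard = q ^ 3 ∧ SpanMore H 2 4 ∧
      ∀ s, 3 ≤ s → s ≤ 21 → s ≠ 18 → SpanMore H s (s + 3)) := by
  refine ⟨?_, fun V F h => h.rectPiece, ?_⟩
  · intro s L hs V _ H F hF hH hsp
    have hsub : ∀ i, F i ⊆ H := fun i => by rw [hH]; exact Set.subset_iUnion F i
    have h6 : H.ncard ≤ ∑ i : Fin L, (F i).ncard := by
      rw [hH]
      exact Set.ncard_iUnion_le_of_fintype F
    refine ⟨?_, fun h => ?_⟩
    · have h1 : ∀ i, ((F i).ncard : ℝ) ≤
          (s - 1) * Fintype.card V + ((Fintype.card V : ℝ) / 3) ^ (3 / 2 : ℝ) := by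
        intro i
        have hsp' : SpanMore H s ((3 - 2) * s + 3) := by
          have h3 : (3 - 2) * s + 3 = s + 3 := by omega
          rw [h3]; exact hsp
        have h2 := piece_le_real (r := 3) le_rfl hs hsp' (hF i) (hsub i)
        exact_mod_cast h2
      calc (H.ncard : ℝ) ≤ ((∑ i : Fin L, (F i).ncard : ℕ) : ℝ) := by exact_mod_cast h6
        _ = ∑ i : Fin L, ((F i).ncard : ℝ) := by push_cast; rfl
        _ ≤ ∑ _i : Fin L, ((s - 1) * Fintype.card V +
              ((Fintype.card V : ℝ) / 3) ^ (3 / 2 : ℝ)) := sum_le_sum fun i _ => h1 i
        _ = _ := by rw [sum_const, card_univ, Fintype.card_fin, nsmul_eq_mul]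
    · calc H.ncard ≤ ∑ i : Fin L, (F i).ncard := h6
        _ ≤ ∑ _i : Fin L, (s - 1) ^ 2 * Fintype.card V :=
            sum_le_sum fun i _ => piece_le_linear h hsp (hF i) (hsub i)
        _ = _ := by rw [sum_const, card_univ, Fintype.card_fin, smul_eq_mul]
  · intro q
    refine ⟨GridV 2 q, inferInstance, grid 2 q, card_gridV 2 q, grid_malcev 2 q,
      ncard_grid 2 q (by norm_num), ?_, ?_⟩
    · exact grid_span 2 q 2 4 (by norm_num) (by norm_num) (by norm_num)
    · intro s h3 h21 h18
      exact grid_span_small q s h3 h21 h18

end Pool.Agent.Results.MP_c82047_co.BicliqueShadows
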