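import Pool.Agent.U671.LC.Main

/-!
# The Brown-Erdős-Sós conjecture for triple systems whose links lie on algebraic curves

The vertices of a 3-graph `H` on `n` vertices are placed at distinct real numbers `u v`, in any way,
and for every vertex `x` there is a plane algebraic curve `C_x` of degree at most `D` such that every
edge can be written `{x, y, z}` with `(u y, u z)` on `C_x`. The curves of different vertices are
independent of each other; they need not depend on `x` algebraically. (An example are the solutions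
of one polynomial equation `F (x, y, z) = 0` of degree `D` in a set of `n` real numbers such that
`F (x, ·, ·)` is not zero for all `x` in the set.)

Let `e = 18` or `e ≥ 22`, and suppose that every `e + 3` vertices span fewer than `e` edges, the
condition of the conjecture for `k = e + 3`.

(1) Then `|H| ≤ C D ^ (3/2) n ^ (2 - 1/14)`, where `C` depends on `e` only.

(2) So the conclusion `|H| ≤ ε n ^ 2` of the conjecture holds for these `k`, as long as
`D ≤ δ n ^ (1/21)`, in particular for fixed `D` and large `n`.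

Proof. We may suppose that two edges have at most one common vertex, and that the leading coefficient
of the equation of `C_x`, as a polynomial in `y`, does not vanish at the third vertex `z` of an edge.
Write `(y, y') ~ (x, x')` if `{x, y, z}` and `{x', y', z}` are edges with the same third vertex `z`;
there are at least about `|H| ^ 2 / n` such incidences between the `n ^ 2` points and the `n ^ 2`
pairs `(x, x')`. By elimination of `z` the points incident to `(x, x')` are on a plane curve of
degree `O(D ^ 3)`, which contains `O(D ^ 3 n)` of the `n ^ 2` points. By polynomial partitioning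
(starting library `R98/EQ`) and the theorem of Kővári, Sós and Turán, in the cells crossed by the
curves and, separately, in the cells whose points are all on the curve, more than
`C D ^ 3 n ^ (20 / 7)` incidences contain a `K_{3, 3 e}`. It gives a grid: `x_j, x'_j`, `y_i, y'_i`,
`z_{ij}` with the edges `{x_j, y_i, z_{ij}}`, `{x'_j, y'_i, z_{ij}}`, `i < 3`, `j < e`, and suitable
`e` of these edges have at most `e + 3` vertices.
-/

set_option autoImplicit false

namespace Pool.Agent.Results.MP_c82047_co.LinksOnCurves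

open MvPolynomial Finset

open scoped Classical

/-- The vertices are placed at distinct real numbers `u v`, and every vertex `x` has a plane
algebraic curve `P x = 0` of degree at most `D` such that every edge can be written `{x, y, z}` with
the point `(u y, u z)` on the curve of `x`. -/
def OnCurves (D : ℕ) {n : ℕ} (H : Finset (Finset (Fin n))) : Prop :=
  ∃ (u : Fin n → ℝ) (P : Fin n → MvPolynomial (Fin 2) ℝ), Function.Injective u ∧
    (∀ x, P x ≠ 0 ∧ (P x).totalDegree ≤ D) ∧
    ∀ A ∈ H, ∃ x y z, x ≠ y ∧ x ≠ z ∧ y ≠ z ∧ A = {x, y, z} ∧ eval ![u y, u z] (P x) = 0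

/-- Every `e + 3` vertices span fewer than `e` edges of `H`. -/
def Sparse (e : ℕ) {n : ℕ} (H : Finset (Finset (Fin n))) : Prop :=
  ∀ U : Finset (Fin n), U.card = e + 3 → (H.filter (fun A => A ⊆ U)).card < e

/-- **The Brown-Erdős-Sós conjecture for triple systems whose links lie on algebraic curves.** -/
theorem result (e : ℕ) (he : e = 18 ∨ 22 ≤ e) :
    (∃ C : ℝ, ∀ (n D : ℕ) (H : Finset (Finset (Fin n))), 1 ≤ D → (∀ A ∈ H, A.card = 3) →
      OnCurves D H → Sparse e H →
      (H.card : ℝ) ≤ C * (D : ℝ) ^ (3 / 2 : ℝ) * (n : ℝ) ^ (2 - 1 / 14 : ℝ)) ∧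
    (∀ ε : ℝ, 0 < ε → ∃ δ : ℝ, 0 < δ ∧ ∀ (n D : ℕ) (H : Finset (Finset (Fin n))), 1 ≤ D →
      (D : ℝ) ≤ δ * (n : ℝ) ^ (1 / 21 : ℝ) → (∀ A ∈ H, A.card = 3) → OnCurves D H →
      Sparse e H → (H.card : ℝ) ≤ ε * (n : ℝ) ^ 2) := by
  obtain ⟨C, hC⟩ := Pool.Agent.U671.LC.main e he
  refine ⟨⟨C, hC⟩, ?_⟩
  intro ε hε
  set C' : ℝ := max C 1 with hC'
  have hC'0 : 0 < C' := lt_of_lt_of_le one_pos (le_max_right _ _)
  refine ⟨(ε / C') ^ (2 / 3 : ℝ), Real.rpow_pos_of_pos (div_pos hε hC'0) _, ?_⟩
  intro n D H hD hDn h3 hcur hs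
  have h1 := hC n D H hD h3 hcur hs
  have hn0 : (0 : ℝ) ≤ n := Nat.cast_nonneg _
  have hq : 0 ≤ ε / C' := (div_pos hε hC'0).le
  have h2 : (D : ℝ) ^ (3 / 2 : ℝ) ≤ ε / C' * (n : ℝ) ^ (1 / 14 : ℝ) := by
    calc (D : ℝ) ^ (3 / 2 : ℝ) ≤ ((ε / C') ^ (2 / 3 : ℝ) * (n : ℝ) ^ (1 / 21 : ℝ)) ^ (3 / 2 : ℝ) :=
          Real.rpow_le_rpow (Nat.cast_nonneg _) hDn (by norm_num)
      _ = ε / C' * (n : ℝ) ^ (1 / 14 : ℝ) := by
          rw [Real.mul_rpow (by positivity) (by positivity), ← Real.rpow_mul hq,
            ← Real.rpow_mul hn0]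
          norm_num
  have h4 : (n : ℝ) ^ (1 / 14 : ℝ) * (n : ℝ) ^ (2 - 1 / 14 : ℝ) = (n : ℝ) ^ 2 := by
    rcases Nat.eq_zero_or_pos n with h | h
    · subst h
      simp only [Nat.cast_zero]
      rw [Real.zero_rpow (by norm_num)]
      norm_num
    · rw [← Real.rpow_add (by exact_mod_cast h)]
      norm_num
  calc (H.card : ℝ) ≤ C * (D : ℝ) ^ (3 / 2 : ℝ) * (n : ℝ) ^ (2 - 1 / 14 : ℝ) := h1
    _ ≤ C' * (D : ℝ) ^ (3 / 2 : ℝ) * (n : ℝ) ^ (2 - 1 / 14 : ℝ) := by
        have : C ≤ C' := le_max_left _ _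
        gcongr
    _ ≤ C' * (ε / C' * (n : ℝ) ^ (1 / 14 : ℝ)) * (n : ℝ) ^ (2 - 1 / 14 : ℝ) := by gcongr
    _ = ε * ((n : ℝ) ^ (1 / 14 : ℝ) * (n : ℝ) ^ (2 - 1 / 14 : ℝ)) := by
        field_simp
    _ = ε * (n : ℝ) ^ 2 := by rw [h4]

end Pool.Agent.Results.MP_c82047_co.LinksOnCurves
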