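import Pool.Agent.U864.OT.Hyper
import Pool.Agent.N598.BT.Main
import Pool.Agent.H96.BesAsy

/-!
# Triple systems given by nondeterministic one-tape machines

The vertices are the `n = 2 ^ m` strings of `m` bits, in any labelling. The edges of the triple
system `H` are covered by `L` sets of ordered triples (`CoveredByMachines`), each of which is decided
by a nondeterministic one-tape machine: the `3 m` bits of the three names are on the tape in some
fixed order (bits of different names may be mixed in any way), the machine may rewrite the tape, the
tape alphabet is arbitrary, and the table may depend on the place; it has `q` states, accepts the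
triples of the set in at most `T` steps, and `T log₂ (q + 1) ≤ δ (log₂ n)²`. Numbers of states,
times and orders may differ from machine to machine, and nothing is required of the triples with a
repeated string.

Theorem. Let `k = 18` or `k ≥ 23`. For every `η > 0` there are `δ > 0` and `C` such that if no `k`
edges of `H` have a union of size at most `k + 3`, then `H` has at most `C L n ^ (1 + η)` edges.
Hence the conjectured bound `o(n ^ 2)` holds for these `k`, with a power saving, for all triple
systems given by `L ≤ n ^ (1 - 2 η)` such machines, and a machine for a triple system with `ε n ^ 2`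
edges and without such configurations satisfies the time-space tradeoff
`T log₂ (q + 1) > δ (log₂ n)²`.

Proof. A machine with `T < B (l + 1)` gives a trellis which guesses the crossing sequences at the
boundaries which the head passes at most `l` times and remembers the bits since the last one
(`Pool/Agent/U864/OT/Trellis.lean`). It is a tree tensor network of small bond dimension over `ℚ`
(`Network.lean`), and the theorem of the library for tree tensor networks gives the result.
-/

set_option autoImplicit false

namespace Pool.Agent.Results.MP_c82047_co.OneTapeMachines

open Pool.Agent.N598.BT Pool.Agent.U864.OT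

open Classical in
theorem result (k : ℕ) (hk : k = 18 ∨ 23 ≤ k) (η : ℝ) (hη : 0 < η) :
    ∃ δ : ℝ, 0 < δ ∧ ∃ C : ℝ, 0 < C ∧ ∀ (m L : ℕ) (H : Finset (Finset (Fin m → Bool))),
      (∀ h ∈ H, h.card = 3) → CoveredByMachines L δ 3 H →
      (∀ G ⊆ H, G.card = k → k + 3 < (G.biUnion id).card) →
      (H.card : ℝ) ≤ C * L * ((2 : ℝ) ^ m) ^ (1 + η) := by
  obtain ⟨𝒯, h1, h2⟩ := Pool.Agent.H96.Bes.grid3 k hk
  obtain ⟨δ, hδ, C, hC⟩ := asymptotic (show 2 ≤ 3 by omega)
    (⟨0, Nat.two_pow_pos k⟩ : Fin (2 ^ k)) η hη
  refine transfer (by norm_num) hη hδ
    (fun m H => ∀ G ⊆ H, G.card = k → k + 3 < (G.biUnion id).card) (C₀ := C) ?_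
  intro m L w H hH hcov hw hfree
  by_contra hcon
  rw [not_le] at hcon
  obtain ⟨G, g1, g2, g3⟩ := hC Bool m L w H hH hcov (by simpa using hw) (by simpa using hcon) 𝒯
  have h3 := hfree G g1 (g2.trans h1)
  have h4 : (G.biUnion id).card ≤ k + 3 :=
    (le_of_eq (congrArg Finset.card (biUnion_inst _ _ G))).trans (g3.trans h2)
  omega

end Pool.Agent.Results.MP_c82047_co.OneTapeMachines
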