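import Pool.Agent.U422.DenseSub
import Pool.Agent.U422.DenseTab

/-!
# All `k` for arbitrary parts of linear relations closed under weak near unanimity operations

A *WNU piece* is a set of `r`-sets of vertices which is a relation between `r` disjoint sets of
vertices, closed under the componentwise application of **some** (arbitrary) idempotent weak near
unanimity operations of one arity `k ≥ 2` on these sets: `t(x,…,x,y,x,…,x)` does not depend on the
position of `y`. Examples are semilattice operations and all commutative idempotent binary
operations, majority, minority and near unanimity operations, `x + y + z` in groups of exponent two,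
`(x + y) / 2` in groups of odd order, and all their products. By a theorem of Maróti and McKenzie such
operations exist as soon as the relation is closed under any idempotent operations satisfying
Taylor identities, in other words unless the relation interprets everything (the algebraic form of
the dichotomy between tractable and intractable constraint satisfaction problems).

**Theorem 1.** Let `r ≥ 3`, `e` and `ε > 0`. There is a constant `C` such that the following holds.
Let `H` be a finite `r`-graph in which any `e` edges span more than `(r - 2) e + 3` vertices, and
suppose that all edges of `H` are in the union of `L` WNU pieces `F i`, each of which is a part of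
`H` or is linear (two edges share at most one vertex). If `F i` has `n i` vertices, then
`|H| ≤ ε ∑ (n i)² + C L`.

In particular `|H| = o(n²)` if `L = o(n²)` and `∑ (n i)² = O(n²)`, for instance if `L` is bounded, or
if the pieces are in the blocks of a linear space (every pair of vertices is in exactly one block)
whose blocks have size at least `m → ∞`. The case `r = 3` is Q1 with `k = e + 3`. The pieces which are
not in `H` are linear, but `H` is an **arbitrary subset** of their union, without any operations. For
instance the case `L = 1` of tables of abelian groups is the theorem that dense sets of cells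
of such tables contain `e` cells with at most `e + 3` rows, columns and symbols (Solymosi and Wong).

**Theorem 2** (transfer). Let `E ⊆ X 0 × X 1 × X 2` be a linear relation closed under WNU operations
and `H ⊆ E` any subset. If `|H ∩ B|² ≤ K |G|³` for all closed subsets `B` of `E` which are the table of
an abelian group `G` (after renaming rows, columns and symbols) then
`|H|² ≤ K |X 0| |X 1| |X 2|`.

Idea of the proof. Let `θ₀, θ₁, θ₂` be the kernels of the projections, equivalence relations on
`E`. Let `ψ₀ = θ₁ ∨ θ₂` and so on, and let `ρ` be the intersection of `ψ₀, ψ₁, ψ₂`.
The classes of `ρ` are closed, and a weighted form of the Loomis–Whitney inequality shows that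
`∑ (|C₀| |C₁| |C₂|)^(1/2) ≤ (|X₀| |X₁| |X₂|)^(1/2)` for the projections `C_i` of the classes `C`. We
decompose the classes in the same way and so on. At the end `ψ_i = 1` on each block. Then `θ₀`
centralizes `θ₁ ∨ θ₂ = 1` and so on, so the block is abelian, its translates are permutations,
the `θ_i` permute, and the block is a latin square with a compatible binary polynomial with a unit.
By an argument of Eckmann and Hilton the block is the table of an abelian group; this proves
Theorem 2. For Theorem 1 we need dense sets of cells of the table of a large abelian group. If the
group has many cyclic factors we use a theorem on products of latin squares, otherwise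
there is an element `g` of large order and the density Hales–Jewett theorem gives a grid
`(x + a D, y + b D)`, `0 ≤ a ≤ 1`, `0 ≤ b < e`, for a multiple `D` of `g`.

For pieces in `H` which are not linear: if an edge is in many triangles, then small sets of vertices
with many edges grow to such sets of any size. Otherwise there are few triangles, every edge meets
few edges in two vertices, and triangle removal for a maximal linear part of the piece shows that
there are few edges.
-/

set_option autoImplicit false

namespace Pool.Agent.Results.MP_c82047_co.TaylorDense

open Finset Pool.Agent.R181.Maj Pool.Agent.U422.Taylor Pool.Agent.U422.TLat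
  Pool.Agent.U422.Dense

/-- **Theorem.** (1) For all `r ≥ 3`, all `e` and all `ε > 0` there is `C` such that: if any
`e` edges of the finite `r`-graph `H` span more than `(r - 2) e + 3` vertices, and `H` is
contained in the union of `L` WNU pieces `F i` each of which is contained in `H` or linear, then
`|H| ≤ ε ∑ |verts (F i)|² + C L`. (2) Transfer from tables of abelian groups to linear relations
closed under WNU operations. -/
theorem result :
    (∀ r : ℕ, 3 ≤ r → ∀ (e : ℕ) (ε : ℝ), 0 < ε → ∃ C : ℝ,
      ∀ (V : Type) [Fintype V] (L : ℕ) (H : Set (Finset V)) (F : Fin L → Set (Finset V)),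
      (∀ i, WNUPiece r (F i)) → (∀ i, F i ⊆ H ∨ Linear (F i)) →
      H ⊆ ⋃ i, F i → SpanMore H e ((r - 2) * e + 3) →
      (H.ncard : ℝ) ≤ ε * ∑ i, ((verts (F i)).ncard : ℝ) ^ 2 + C * L) ∧
    ∀ (X : Fin 3 → Type) [∀ i, Fintype (X i)] (E H : Set (∀ i, X i)) (k : ℕ)
      (t : ∀ i, (Fin k → X i) → X i), 2 ≤ k → (∀ i, IsWNU (t i)) → Lin E → Cl E t → H ⊆ E →
      ∀ K : ℝ, 0 ≤ K →
      (∀ (G : Type) [AddCommGroup G] [Fintype G] (B : Set (∀ i, X i)) (f : ∀ i, X i → G),
        B ⊆ E → Cl B t → AbTable G B f →
        ((H ∩ B).ncard : ℝ) ^ 2 ≤ K * (Fintype.card G : ℝ) ^ 3) →
      (H.ncard : ℝ) ^ 2 ≤ K * ∏ i, (Fintype.card (X i) : ℝ) := by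
  refine ⟨?_, fun X _ E H k t hk ht hlin hcl hH K hK h =>
    transfer X E H k t hk ht hlin hcl hH K hK h⟩
  intro r hr e ε hε
  obtain ⟨C, hC⟩ := piece_all r hr e ε hε
  refine ⟨C, ?_⟩
  intro V _ L H F hF hFH hH hsp
  have h6 : H.ncard ≤ ∑ i : Fin L, (H ∩ F i).ncard := by
    have h7 : H = ⋃ i, H ∩ F i := by
      rw [← Set.inter_iUnion]
      exact (Set.inter_eq_left.2 hH).symm
    conv_lhs => rw [h7]
    exact Set.ncard_iUnion_le_of_fintype fun i => H ∩ F i
  calc (H.ncard : ℝ) ≤ ((∑ i : Fin L, (H ∩ F i).ncard : ℕ) : ℝ) := by exact_mod_cast h6
    _ = ∑ i : Fin L, ((H ∩ F i).ncard : ℝ) := by push_cast; rfl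
    _ ≤ ∑ i : Fin L, (ε * ((verts (F i)).ncard : ℝ) ^ 2 + C) :=
        sum_le_sum fun i _ => hC V H (F i) (hF i) (hFH i) hsp
    _ = ε * ∑ i, ((verts (F i)).ncard : ℝ) ^ 2 + C * L := by
        rw [sum_add_distrib, sum_const, card_univ, Fintype.card_fin, nsmul_eq_mul, mul_sum]
        ring

end Pool.Agent.Results.MP_c82047_co.TaylorDense
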